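import Mathlib

namespace Pool.Agent.Results.MP_cbbafe_pr.TwoExtrema

open Finset

/-- Probability of a given word (`true` = H with probability `p`). -/
noncomputable def wt (p : ℝ) {n : ℕ} (w : Fin n → Bool) : ℝ := ∏ i, if w i then p else 1 - p

/-- `Pr(τ > n)`: the pattern `T` does not occur among the first `n` tosses. -/
noncomputable def surv (T : List Bool) (p : ℝ) (n : ℕ) : ℝ :=
  ∑ w : Fin n → Bool, if T <:+: List.ofFn w then 0 else wt p w

/-- `Pr(τ = n + 1) = Pr(τ > n) - Pr(τ > n + 1)`. -/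
noncomputable def hit (T : List Bool) (p : ℝ) (n : ℕ) : ℝ := surv T p n - surv T p (n + 1)

/-- `W(p) = ∑_m Pr(τ₁ = m) (Pr(τ₂ > m) + Pr(τ₂ = m) / 2)`, with `m = n + 1`. -/
noncomputable def W (T₁ T₂ : List Bool) (p : ℝ) : ℝ :=
  ∑' n, hit T₁ p n * (surv T₂ p (n + 1) + hit T₂ p n / 2)

noncomputable def A (T : List Bool) (p : ℝ) (s : List Bool) (n : ℕ) : ℝ :=
  ∑ w : Fin n → Bool, if T <:+: s ++ List.ofFn w then 0 else wt p w

lemma A_zero (T : List Bool) (p : ℝ) (s : List Bool) :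
    A T p s 0 = if T <:+: s then 0 else 1 := by simp [A, wt]

lemma A_succ (T : List Bool) (p : ℝ) (s : List Bool) (n : ℕ) :
    A T p s (n + 1) = p * A T p (s ++ [true]) n + (1 - p) * A T p (s ++ [false]) n := by
  unfold A
  rw [← (Fin.consEquiv fun _ : Fin (n + 1) => Bool).sum_comp, Fintype.sum_prod_type,
    Fintype.sum_bool, mul_sum, mul_sum]
  congr 1 <;> refine sum_congr rfl fun w _ => ?_ <;>
    simp [Fin.consEquiv_apply, List.ofFn_succ, wt, Fin.prod_univ_succ]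

lemma A_bd (T : List Bool) (p : ℝ) (h0 : 0 ≤ p) (h1 : p ≤ 1) (n : ℕ) :
    ∀ s, 0 ≤ A T p s n ∧ A T p s n ≤ 1 := by
  induction n with
  | zero => intro s; rw [A_zero]; split_ifs <;> norm_num
  | succ n ih =>
    intro s
    rw [A_succ]
    obtain ⟨a1, a2⟩ := ih (s ++ [true])
    obtain ⟨b1, b2⟩ := ih (s ++ [false])
    constructor <;> nlinarith

lemma A_congr (T : List Bool) (p : ℝ) (s s' : List Bool)
    (h : ∀ w, T <:+: s ++ w ↔ T <:+: s' ++ w) (n : ℕ) : A T p s n = A T p s' n := by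
  unfold A
  simp only [h]

lemma A_dead (T : List Bool) (p : ℝ) (n : ℕ) : A T p T n = 0 := by
  unfold A
  exact sum_eq_zero fun w _ => if_pos (List.prefix_append _ _).isInfix

def T1 : List Bool := [true, false]
def T2 : List Bool := [true, true, false, false]

lemma a1 (p : ℝ) (n : ℕ) : A T1 p [true] n = p ^ n := by
  induction n with
  | zero => rw [A_zero, if_neg (by decide)]; simp
  | succ n ih =>
    rw [A_succ, A_congr T1 p ([true] ++ [true]) [true]
      (fun w => by simp [T1, List.infix_cons_iff]), ih,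
      show [true] ++ [false] = T1 from rfl, A_dead]
    ring

lemma a0 (p : ℝ) (n : ℕ) :
    A T1 p [] n * (p - (1 - p)) = p ^ (n + 1) - (1 - p) ^ (n + 1) := by
  induction n with
  | zero => rw [A_zero, if_neg (by decide)]; simp
  | succ n ih =>
    rw [A_succ, A_congr T1 p ([] ++ [false]) []
      (fun w => by simp [T1, List.infix_cons_iff]), List.nil_append, a1]
    linear_combination (1 - p) * ih

lemma hit1 (p : ℝ) (hp : p - (1 - p) ≠ 0) (n : ℕ) :
    hit T1 p n = p * (1 - p) / (p - (1 - p)) * (p ^ n - (1 - p) ^ n) := by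
  have e : ∀ m, surv T1 p m = A T1 p [] m := fun m => rfl
  rw [hit, e, e]
  field_simp
  linear_combination a0 p n - a0 p (n + 1)

lemma summ (T : List Bool) (p z : ℝ) (h0 : 0 ≤ p) (h1 : p ≤ 1) (z0 : 0 ≤ z) (z1 : z < 1)
    (s : List Bool) (k : ℕ) : Summable fun n => A T p s (n + k) * z ^ n :=
  Summable.of_nonneg_of_le (fun n => mul_nonneg (A_bd T p h0 h1 _ s).1 (pow_nonneg z0 n))
    (fun n => mul_le_of_le_one_left (pow_nonneg z0 n) (A_bd T p h0 h1 _ s).2)
    (summable_geometric_of_lt_one z0 z1)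

lemma summ0 (T : List Bool) (p z : ℝ) (h0 : 0 ≤ p) (h1 : p ≤ 1) (z0 : 0 ≤ z) (z1 : z < 1)
    (s : List Bool) : Summable fun n => A T p s n * z ^ n := summ T p z h0 h1 z0 z1 s 0

noncomputable def Gs (p z : ℝ) (s : List Bool) : ℝ := ∑' n, A T2 p s n * z ^ n

lemma Gs_shift (p z : ℝ) (h0 : 0 ≤ p) (h1 : p ≤ 1) (z0 : 0 ≤ z) (z1 : z < 1) (s : List Bool) :
    Gs p z s = A T2 p s 0 + z * ∑' n, A T2 p s (n + 1) * z ^ n := by
  unfold Gs
  rw [(summ0 T2 p z h0 h1 z0 z1 s).tsum_eq_zero_add, ← tsum_mul_left]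
  simp only [pow_zero, mul_one]
  congr 1
  exact tsum_congr fun n => by ring

lemma Gs_rec (p z : ℝ) (h0 : 0 ≤ p) (h1 : p ≤ 1) (z0 : 0 ≤ z) (z1 : z < 1) (s : List Bool) :
    Gs p z s = A T2 p s 0 + z * (p * Gs p z (s ++ [true]) + (1 - p) * Gs p z (s ++ [false])) := by
  rw [Gs_shift p z h0 h1 z0 z1]
  congr 2
  unfold Gs
  rw [← tsum_mul_left, ← tsum_mul_left, ← ((summ0 T2 p z h0 h1 z0 z1 _).mul_left p).tsum_add
    ((summ0 T2 p z h0 h1 z0 z1 _).mul_left (1 - p))]
  exact tsum_congr fun n => by rw [A_succ]; ring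

lemma Gs_congr (p z : ℝ) (s s' : List Bool) (h : ∀ w, T2 <:+: s ++ w ↔ T2 <:+: s' ++ w) :
    Gs p z s = Gs p z s' := by
  unfold Gs
  simp only [A_congr T2 p s s' h]

def u (p z : ℝ) : ℝ := 1 - z + p ^ 2 * (1 - p) ^ 2 * z ^ 4

lemma Gs_val (p z : ℝ) (h0 : 0 < p) (h1 : p < 1) (z0 : 0 ≤ z) (z1 : z < 1) :
    Gs p z [] = 1 / u p z := by
  have r0 := Gs_rec p z h0.le h1.le z0 z1 []
  have r1 := Gs_rec p z h0.le h1.le z0 z1 [true]
  have r2 := Gs_rec p z h0.le h1.le z0 z1 [true, true]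
  have r3 := Gs_rec p z h0.le h1.le z0 z1 [true, true, false]
  rw [A_zero, if_neg (by decide)] at r0 r1 r2 r3
  rw [Gs_congr p z ([] ++ [false]) [] (fun w => by simp [T2, List.infix_cons_iff])] at r0
  rw [Gs_congr p z ([true] ++ [false]) [] (fun w => by simp [T2, List.infix_cons_iff])] at r1
  rw [Gs_congr p z ([true, true] ++ [true]) [true, true]
    (fun w => by simp [T2, List.infix_cons_iff])] at r2
  rw [Gs_congr p z ([true, true, false] ++ [true]) [true]
    (fun w => by simp [T2, List.infix_cons_iff])] at r3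
  have hd : Gs p z ([true, true, false] ++ [false]) = 0 := by
    unfold Gs
    rw [show [true, true, false] ++ [false] = T2 from rfl]
    simp [A_dead]
  rw [hd] at r3
  simp only [List.nil_append, List.cons_append] at r0 r1 r2
  have hu : 0 < u p z := by
    have : 0 ≤ p ^ 2 * (1 - p) ^ 2 * z ^ 4 := by positivity
    unfold u; linarith
  rw [eq_div_iff hu.ne', u]
  linear_combination ((1 - z * p) - z ^ 3 * p ^ 2 * (1 - p)) * r0 + z * p * (1 - z * p) * r1 +
    z ^ 2 * p ^ 2 * r2 + z ^ 3 * p ^ 2 * (1 - p) * r3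

noncomputable def R (p : ℝ) : ℝ :=
  p * (1 - p) / (p - (1 - p)) / 2 * ((1 / u p p + (1 / u p p - 1) / p) -
    (1 / u p (1 - p) + (1 / u p (1 - p) - 1) / (1 - p)))

lemma W_eq (p : ℝ) (h0 : 0 < p) (h1 : p < 1) (hp : p - (1 - p) ≠ 0) : W T1 T2 p = R p := by
  have key : ∀ z, 0 < z → z < 1 → HasSum (fun n => (A T2 p [] n + A T2 p [] (n + 1)) * z ^ n)
      (1 / u p z + (1 / u p z - 1) / z) := by
    intro z z0 z1
    have s0 := (summ T2 p z h0.le h1.le z0.le z1 [] 0).hasSum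
    have s1 := (summ T2 p z h0.le h1.le z0.le z1 [] 1).hasSum
    have e0 := Gs_val p z h0 h1 z0.le z1
    have e1 := Gs_shift p z h0.le h1.le z0.le z1 []
    rw [A_zero, if_neg (by decide), e0] at e1
    have e2 : ∑' n, A T2 p [] (n + 1) * z ^ n = (1 / u p z - 1) / z := by
      rw [eq_div_iff z0.ne']; linarith
    unfold Gs at e0
    simp only [add_zero] at s0
    rw [e0] at s0
    rw [e2] at s1
    simpa only [add_mul] using s0.add s1
  have h := ((key p h0 h1).sub (key (1 - p) (by linarith) (by linarith))).mul_left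
    (p * (1 - p) / (p - (1 - p)) / 2)
  unfold W R
  rw [← h.tsum_eq]
  refine tsum_congr fun n => ?_
  have e : ∀ m, surv T2 p m = A T2 p [] m := fun m => rfl
  rw [hit1 p hp, hit, e, e]
  ring

lemma loc (a b c : ℝ) (h0 : 0 < a) (h1 : b < 1) (hac : a < c) (hcb : c < b)
    (hs : b < 1 / 2 ∨ 1 / 2 < a) (ha : R c < R a) (hb : R c < R b) :
    ∃ x, a < x ∧ x < b ∧ IsLocalMin (W T1 T2) x := by
  have hne : ∀ x ∈ Set.Icc a b, x - (1 - x) ≠ 0 := by
    intro x hx h
    rcases hs with hs | hs <;> linarith [hx.1, hx.2]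
  have hu : ∀ p z : ℝ, z < 1 → u p z ≠ 0 := by
    intro p z hz
    have : 0 ≤ p ^ 2 * (1 - p) ^ 2 * z ^ 4 := by positivity
    unfold u; linarith
  have hc : ContinuousOn R (Set.Icc a b) := by
    have c1 : Continuous fun p => u p p := by unfold u; fun_prop
    have c2 : Continuous fun p => u p (1 - p) := by unfold u; fun_prop
    have n1 : ∀ x ∈ Set.Icc a b, u x x ≠ 0 := fun x hx => hu _ _ (by linarith [hx.2])
    have n2 : ∀ x ∈ Set.Icc a b, u x (1 - x) ≠ 0 := fun x hx => hu _ _ (by linarith [hx.1])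
    have n3 : ∀ x ∈ Set.Icc a b, x ≠ 0 := fun x hx => by linarith [hx.1]
    have n4 : ∀ x ∈ Set.Icc a b, 1 - x ≠ 0 := fun x hx => by linarith [hx.2]
    have d1 : ContinuousOn (fun p => 1 / u p p) (Set.Icc a b) :=
      continuousOn_const.div c1.continuousOn n1
    have d2 : ContinuousOn (fun p => 1 / u p (1 - p)) (Set.Icc a b) :=
      continuousOn_const.div c2.continuousOn n2
    unfold R
    refine (((by fun_prop : ContinuousOn (fun p : ℝ => p * (1 - p)) _).div (by fun_prop)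
      hne).div_const 2).mul ((d1.add ((d1.sub continuousOn_const).div continuousOn_id n3)).sub
      (d2.add ((d2.sub continuousOn_const).div (by fun_prop) n4)))
  obtain ⟨x, hx, hm⟩ := isCompact_Icc.exists_isMinOn ⟨c, hac.le, hcb.le⟩ hc
  have hxc : R x ≤ R c := hm ⟨hac.le, hcb.le⟩
  have hax : a < x := lt_of_le_of_ne hx.1 (by rintro rfl; linarith)
  have hxb : x < b := lt_of_le_of_ne hx.2 (by rintro rfl; linarith)
  refine ⟨x, hax, hxb, ?_⟩
  filter_upwards [Icc_mem_nhds hax hxb] with y hy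
  rw [W_eq x (by linarith) (by linarith) (hne x hx),
    W_eq y (by linarith [hy.1]) (by linarith [hy.2]) (hne y hy)]
  exact hm hy

theorem result : ∃ T₁ T₂ : List Bool, T₁ ≠ [] ∧ T₂ ≠ [] ∧
    (∃ p ∈ Set.Ioo (0 : ℝ) 1, ∃ p' ∈ Set.Ioo (0 : ℝ) 1, W T₁ T₂ p ≠ W T₁ T₂ p') ∧
    ∃ x ∈ Set.Ioo (0 : ℝ) 1, ∃ y ∈ Set.Ioo (0 : ℝ) 1, x ≠ y ∧
      IsLocalMin (W T₁ T₂) x ∧ IsLocalMin (W T₁ T₂) y := by
  refine ⟨T1, T2, by decide, by decide, ⟨1 / 4, by norm_num, 1 / 10, by norm_num, ?_⟩, ?_⟩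
  · rw [W_eq _ (by norm_num) (by norm_num) (by norm_num),
      W_eq _ (by norm_num) (by norm_num) (by norm_num)]
    norm_num [R, u]
  · obtain ⟨x, x0, x1, hx⟩ := loc (1 / 10) (2 / 5) (1 / 4) (by norm_num) (by norm_num)
      (by norm_num) (by norm_num) (by norm_num) (by norm_num [R, u]) (by norm_num [R, u])
    obtain ⟨y, y0, y1, hy⟩ := loc (3 / 5) (9 / 10) (3 / 4) (by norm_num) (by norm_num)
      (by norm_num) (by norm_num) (by norm_num) (by norm_num [R, u]) (by norm_num [R, u])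
    exact ⟨x, ⟨by linarith, by linarith⟩, y, ⟨by linarith, by linarith⟩, by linarith, hx, hy⟩

end Pool.Agent.Results.MP_cbbafe_pr.TwoExtrema
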